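import Pool.Agent.Y245.SG.Stm

/-!
# Project SG, job HT: heights of the iterates
-/

set_option autoImplicit false

open Polynomial

namespace Pool.Agent.Y514.SG

open Pool.Agent.Y245.SG

/-- the vector `P` has degrees at most `m` and coefficients at most `A` -/
def Bd (N m : ℕ) (A : ℝ) (P : ℕ → ℤ[X]) : Prop :=
  (∀ i, N < i → P i = 0) ∧ (∀ i, (P i).natDegree ≤ m) ∧ ∀ i l, |(((P i).coeff l : ℤ) : ℝ)| ≤ A

theorem step_zero (N : ℕ) (P : ℕ → ℤ[X]) (h : ∀ i, N < i → P i = 0) :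
    ∀ i, N < i → step N P i = 0 := by
  intro i hi
  obtain ⟨j, rfl⟩ : ∃ j, i = j + 1 := ⟨i - 1, by omega⟩
  simp only [step]
  rw [h (j + 1) hi, h (j + 1 + 1) (by omega)]
  rcases Nat.lt_or_ge N j with h1 | h1
  · rw [h j h1]; simp
  · have : j = N := by omega
    subst this
    simp

theorem step_deg (N m : ℕ) (P : ℕ → ℤ[X]) (h : ∀ i, (P i).natDegree ≤ m) (i : ℕ) :
    (step N P i).natDegree ≤ m + 1 := by
  have h1 : ∀ (c : ℤ) (j : ℕ), (C c * P j).natDegree ≤ m + 1 := fun c j =>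
    (natDegree_C_mul_le _ _).trans ((h j).trans (Nat.le_succ m))
  have h2 : (X * derivative (P i)).natDegree ≤ m + 1 := by
    refine natDegree_mul_le.trans ?_
    have := natDegree_derivative_le (P i)
    have h3 := h i
    have h4 : (X : ℤ[X]).natDegree ≤ 1 := natDegree_X_le
    omega
  have h3 : (C ((i : ℤ) + 1) * (X * P (i + 1))).natDegree ≤ m + 1 := by
    refine (natDegree_C_mul_le _ _).trans (natDegree_mul_le.trans ?_)
    have h3 := h (i + 1)
    have h4 : (X : ℤ[X]).natDegree ≤ 1 := natDegree_X_le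
    omega
  unfold step
  refine (natDegree_add_le _ _).trans (max_le ((natDegree_sub_le _ _).trans
    (max_le ((natDegree_sub_le _ _).trans (max_le h2 (h1 _ _))) h3)) ?_)
  cases i with
  | zero => simp
  | succ j => exact h1 _ _

theorem coeff_X_mul_der (p : ℤ[X]) (l : ℕ) : (X * derivative p).coeff l = l * p.coeff l := by
  cases l with
  | zero => simp
  | succ l =>
    rw [coeff_X_mul, coeff_derivative]
    push_cast
    ring

theorem last_bd (N : ℕ) (A : ℝ) (P : ℕ → ℤ[X]) (hA : 0 ≤ A)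
    (h2 : ∀ i l, |(((P i).coeff l : ℤ) : ℝ)| ≤ A) (i l : ℕ) :
    i ≤ N → |(((match i with
      | 0 => (0 : ℤ[X])
      | j + 1 => C ((N : ℤ) - j) * P j).coeff l : ℤ) : ℝ)| ≤ N * A := by
  intro hi
  have hiR : (i : ℝ) ≤ N := by exact_mod_cast hi
  cases i with
  | zero =>
    simp only [coeff_zero, Int.cast_zero, abs_zero]
    positivity
  | succ j =>
    simp only
    rw [coeff_C_mul, Int.cast_mul, abs_mul]
    refine mul_le_mul ?_ (h2 j l) (abs_nonneg _) (Nat.cast_nonneg _)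
    push_cast at hiR ⊢
    rw [abs_of_nonneg (by linarith)]
    have : (0 : ℝ) ≤ j := Nat.cast_nonneg _
    linarith

theorem step_bd (N m : ℕ) (A : ℝ) (P : ℕ → ℤ[X]) (h : Bd N m A P) :
    Bd N (m + 1) ((m + 3 * N + 3) * A) (step N P) := by
  obtain ⟨h0, h1, h2⟩ := h
  have hA : 0 ≤ A := (abs_nonneg _).trans (h2 0 0)
  refine ⟨step_zero N P h0, step_deg N m P h1, fun i l => ?_⟩
  rcases Nat.lt_or_ge N i with hi | hi
  · rw [step_zero N P h0 i hi]
    simp only [coeff_zero, Int.cast_zero, abs_zero]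
    positivity
  have hiR : (i : ℝ) ≤ N := by exact_mod_cast hi
  have e1 : |(((X * derivative (P i)).coeff l : ℤ) : ℝ)| ≤ m * A := by
    rw [coeff_X_mul_der]
    rcases Nat.lt_or_ge m l with hl | hl
    · rw [coeff_eq_zero_of_natDegree_lt ((h1 i).trans_lt hl)]
      simp only [mul_zero, Int.cast_zero, abs_zero]
      positivity
    · rw [Int.cast_mul, abs_mul]
      refine mul_le_mul ?_ (h2 i l) (abs_nonneg _) (Nat.cast_nonneg _)
      rw [Int.cast_natCast, Nat.abs_cast]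
      exact_mod_cast hl
  have e2 : |(((C ((N : ℤ) - i) * P i).coeff l : ℤ) : ℝ)| ≤ N * A := by
    rw [coeff_C_mul, Int.cast_mul, abs_mul]
    refine mul_le_mul ?_ (h2 i l) (abs_nonneg _) (Nat.cast_nonneg _)
    push_cast
    rw [abs_of_nonneg (by linarith)]
    have : (0 : ℝ) ≤ i := Nat.cast_nonneg _
    linarith
  have e3 : |(((C ((i : ℤ) + 1) * (X * P (i + 1))).coeff l : ℤ) : ℝ)| ≤ (N + 1) * A := by
    rw [coeff_C_mul, Int.cast_mul, abs_mul]
    refine mul_le_mul ?_ ?_ (abs_nonneg _) (by positivity)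
    · push_cast
      rw [abs_of_nonneg (by positivity)]
      linarith
    · cases l with
      | zero => simpa using hA
      | succ l =>
        rw [coeff_X_mul]
        exact h2 _ _
  have e4 := last_bd N A P hA h2 i l hi
  unfold step
  rw [coeff_add, coeff_sub, coeff_sub]
  rw [Int.cast_add, Int.cast_sub, Int.cast_sub]
  refine (abs_add_le _ _).trans ?_
  refine (add_le_add ((abs_sub _ _).trans (add_le_add (abs_sub _ _) le_rfl)) le_rfl).trans ?_
  refine (add_le_add (add_le_add (add_le_add e1 e2) e3) e4).trans ?_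
  linarith

theorem iter_bd (N n : ℕ) (A : ℝ) (P : ℕ → ℤ[X]) (h : Bd N n A P) (M : ℕ) (k : ℕ)
    (hk : n + k + 3 * N + 3 ≤ M) : Bd N (n + k) ((M : ℝ) ^ k * A) (Pk N P k) := by
  induction k with
  | zero => simpa [Pk] using h
  | succ k ih =>
    have h1 := step_bd N (n + k) _ _ (ih (by omega))
    have e : Pk N P (k + 1) = step N (Pk N P k) := by
      simp only [Pk, Function.iterate_succ_apply']
    rw [e]
    obtain ⟨a, b, c⟩ := h1
    have hA : 0 ≤ (M : ℝ) ^ k * A := (abs_nonneg _).trans ((ih (by omega)).2.2 0 0)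
    refine ⟨a, b, fun i l => (c i l).trans ?_⟩
    have h2 : (((n + k : ℕ) : ℝ) + 3 * N + 3) ≤ M := by
      have : n + k + 3 * N + 3 ≤ M := by omega
      exact_mod_cast this
    calc (((n + k : ℕ) : ℝ) + 3 * N + 3) * ((M : ℝ) ^ k * A)
        ≤ M * ((M : ℝ) ^ k * A) := mul_le_mul_of_nonneg_right h2 hA
      _ = (M : ℝ) ^ (k + 1) * A := by ring

theorem ht : S_HT := by
  intro N s K hN hs hK
  set C0 : ℕ := N ^ 2 + 4 * N + 5 with hC0
  set E : ℕ := N ^ 2 + N with hE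
  have hC1 : (1 : ℝ) ≤ C0 := by
    have : 1 ≤ C0 := by omega
    exact_mod_cast this
  refine ⟨K * ((C0 : ℝ) ^ E * 2 ^ E * C0), ?_, ?_⟩
  · have h1 : (1 : ℝ) ≤ (C0 : ℝ) ^ E := one_le_pow₀ hC1
    have h2 : (1 : ℝ) ≤ (2 : ℝ) ^ E := one_le_pow₀ (by norm_num)
    exact one_le_mul_of_one_le_of_one_le hK
      (one_le_mul_of_one_le_of_one_le (one_le_mul_of_one_le_of_one_le h1 h2) hC1)
  intro n k P hn hk h0 h1 h2 i
  have hn1 : (1 : ℝ) ≤ n := by exact_mod_cast hn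
  have hn0 : (0 : ℝ) < n := by linarith
  have hK0 : 0 ≤ K := by linarith
  have hbd : Bd N n (K ^ n * (n : ℝ) ^ (2 * n)) P := by
    refine ⟨h0, h1, fun i l => ?_⟩
    rcases Nat.lt_or_ge n l with hl | hl
    · rw [coeff_eq_zero_of_natDegree_lt ((h1 i).trans_lt hl)]
      simp only [Int.cast_zero, abs_zero]
      positivity
    · refine (h2 i l hl).trans ?_
      refine mul_le_mul_of_nonneg_left ?_ (pow_nonneg hK0 n)
      have h3 : ((n.factorial : ℝ) / l.factorial) ≤ (n : ℝ) ^ n := by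
        have h4 : (1 : ℝ) ≤ l.factorial := by exact_mod_cast Nat.one_le_iff_ne_zero.2 l.factorial_ne_zero
        have h5 : (n.factorial : ℝ) ≤ (n : ℝ) ^ n := by exact_mod_cast Nat.factorial_le_pow n
        exact (div_le_self (by positivity) h4).trans h5
      calc ((n.factorial : ℝ) / l.factorial) ^ 2 ≤ ((n : ℝ) ^ n) ^ 2 :=
            pow_le_pow_left₀ (by positivity) h3 2
        _ = (n : ℝ) ^ (2 * n) := by rw [← pow_mul, mul_comm]
  have hM : n + k + 3 * N + 3 ≤ C0 * n := by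
    have h3 : n / s ≤ n := Nat.div_le_self n s
    have h4 : k ≤ N ^ 2 + N + n := by omega
    have h5 : N ^ 2 + 4 * N + 3 ≤ (N ^ 2 + 4 * N + 3) * n := Nat.le_mul_of_pos_right _ hn
    have h6 : C0 * n = (N ^ 2 + 4 * N + 3) * n + 2 * n := by rw [hC0]; ring
    omega
  obtain ⟨_, b, c⟩ := iter_bd N n _ P hbd (C0 * n) k hM
  refine ⟨b i, fun l => (c i l).trans ?_⟩
  have hCn : (1 : ℝ) ≤ (C0 : ℝ) * n := one_le_mul_of_one_le_of_one_le hC1 hn1
  have f1 : (((C0 * n : ℕ) : ℝ)) ^ k ≤ ((C0 : ℝ) * n) ^ (E + n / s) := by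
    push_cast
    exact pow_le_pow_right₀ hCn hk
  have f2 : ((C0 : ℝ) * n) ^ (E + n / s) ≤
      ((C0 : ℝ) ^ E * 2 ^ E * C0) ^ n * (n : ℝ) ^ (n / s) := by
    have g1 : (C0 : ℝ) ^ E ≤ ((C0 : ℝ) ^ E) ^ n := le_self_pow₀ (one_le_pow₀ hC1) (by omega)
    have g2 : (n : ℝ) ^ E ≤ ((2 : ℝ) ^ E) ^ n := by
      rw [← pow_mul, mul_comm, pow_mul]
      refine pow_le_pow_left₀ (by positivity) ?_ E
      exact_mod_cast (Nat.lt_two_pow_self).le
    have g3 : (C0 : ℝ) ^ (n / s) ≤ (C0 : ℝ) ^ n := pow_le_pow_right₀ hC1 (Nat.div_le_self n s)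
    calc ((C0 : ℝ) * n) ^ (E + n / s)
        = ((C0 : ℝ) ^ E * (n : ℝ) ^ E * (C0 : ℝ) ^ (n / s)) * (n : ℝ) ^ (n / s) := by
          rw [pow_add, mul_pow, mul_pow]; ring
      _ ≤ (((C0 : ℝ) ^ E) ^ n * ((2 : ℝ) ^ E) ^ n * (C0 : ℝ) ^ n) * (n : ℝ) ^ (n / s) := by
          refine mul_le_mul_of_nonneg_right ?_ (by positivity)
          exact mul_le_mul (mul_le_mul g1 g2 (by positivity) (by positivity)) g3
            (by positivity) (by positivity)
      _ = ((C0 : ℝ) ^ E * 2 ^ E * C0) ^ n * (n : ℝ) ^ (n / s) := by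
          rw [mul_pow, mul_pow]
  have f3 : (n : ℝ) ^ (n / s) * (n : ℝ) ^ (2 * n) ≤ (n : ℝ) ^ ((2 + 1 / (s : ℝ)) * n) := by
    rw [← pow_add, ← Real.rpow_natCast]
    refine Real.rpow_le_rpow_of_exponent_le hn1 ?_
    push_cast
    have : ((n / s : ℕ) : ℝ) ≤ (n : ℝ) / s := Nat.cast_div_le
    have e : (2 + 1 / (s : ℝ)) * n = n / s + 2 * n := by ring
    rw [e]
    linarith
  have hnn : (0 : ℝ) ≤ (K ^ n * (n : ℝ) ^ (2 * n)) := by positivity
  calc (((C0 * n : ℕ) : ℝ)) ^ k * (K ^ n * (n : ℝ) ^ (2 * n))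
      ≤ (((C0 : ℝ) ^ E * 2 ^ E * C0) ^ n * (n : ℝ) ^ (n / s)) * (K ^ n * (n : ℝ) ^ (2 * n)) :=
        mul_le_mul_of_nonneg_right (f1.trans f2) hnn
    _ = (K * ((C0 : ℝ) ^ E * 2 ^ E * C0)) ^ n * ((n : ℝ) ^ (n / s) * (n : ℝ) ^ (2 * n)) := by
        rw [mul_pow K]; ring
    _ ≤ (K * ((C0 : ℝ) ^ E * 2 ^ E * C0)) ^ n * (n : ℝ) ^ ((2 + 1 / (s : ℝ)) * n) :=
        mul_le_mul_of_nonneg_left f3 (by positivity)

end Pool.Agent.Y514.SG
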